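import Pool.Agent.W_MP_4cc686_gt.Main

namespace Pool.Agent.Results.MP_4cc686_gt.OpenImage

open Pool.Agent.W_MP_4cc686_gt

/-- Hereditary density can grow under open continuous (even linear) surjections of spaces
`C_p(X)`: there are compact Hausdorff spaces `X` and `Y` with `hd X = ℵ₀` and `hd Y = 2^ℵ₀` and an
open continuous linear surjection from `C_p(X)` onto `C_p(Y)`. -/
theorem result : ∃ (X Y : Type) (_ : TopologicalSpace X) (_ : TopologicalSpace Y),
    T35Space X ∧ T35Space Y ∧ CompactSpace X ∧ CompactSpace Y ∧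
    (∃ φ : Cp X →L[ℝ] Cp Y, Function.Surjective φ ∧ IsOpenMap φ) ∧
    hd X = Cardinal.aleph0 ∧ hd Y = Cardinal.continuum :=
  ⟨DA, OnePoint Dsc, inferInstance, inferInstance, inferInstance, inferInstance, inferInstance,
    inferInstance, ⟨T, T_surjective, T_isOpenMap⟩, hd_DA, hd_OnePoint⟩

end Pool.Agent.Results.MP_4cc686_gt.OpenImage
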